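import Mathlib
import Pool.Agent.Helper38.PG.Core

/-!
# The limit object of a sequence of constant windows
-/

set_option autoImplicit false

open Filter Topology

namespace Pool.Agent.Helper38.PG

/-- A sequence of completely multiplicative functions `F n`, constant on the window
`(R ^ 4, R ^ 4 + (1 + ε) R ^ 2]`, with `R → ∞` along the ultrafilter `U`. -/
structure Hyp {G : Type*} [CommGroup G] (ε : ℝ) (s0 : ℕ → G) (F : ℕ → ℤ → G) (R : ℕ → ℝ)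
    (U : Ultrafilter ℕ) : Prop where
  hε : 0 < ε
  hε1 : ε < 1
  hmul : ∀ n, ∀ a b : ℤ, a ≠ 0 → b ≠ 0 → F n (a * b) = F n a * F n b
  hR : Tendsto R U atTop
  hW : ∀ n, ∀ z : ℤ, R n ^ 4 < z → (z : ℝ) ≤ R n ^ 4 + (1 + ε) * R n ^ 2 → F n z = s0 n

/-- `F n` has the value `s` near `R ^ 2 + t R` for most `n` -/
def HasVal {G : Type*} (F : ℕ → ℤ → G) (R : ℕ → ℝ) (U : Ultrafilter ℕ) (t : ℝ) (s : ℕ → G) : Prop :=
  ∃ η : ℝ, 0 < η ∧ ∀ᶠ n in (U : Filter ℕ), ∀ N : ℤ, |(N : ℝ) - R n ^ 2 - t * R n| ≤ η * R n →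
    F n N = s n

theorem rlim (U : Ultrafilter ℕ) (g : ℕ → ℝ) (x y : ℝ) (h : ∀ᶠ n in (U : Filter ℕ), g n ∈ Set.Icc x y) :
    ∃ z ∈ Set.Icc x y, Tendsto g U (𝓝 z) := by
  have h1 : ((U.map g : Ultrafilter ℝ) : Filter ℝ) ≤ 𝓟 (Set.Icc x y) := by
    rw [le_principal_iff]
    exact h
  obtain ⟨z, hz, hz2⟩ := isCompact_Icc.ultrafilter_le_nhds (U.map g) h1
  exact ⟨z, hz, hz2⟩

namespace Hyp

variable {G : Type*} [CommGroup G] {ε : ℝ} {s0 : ℕ → G} {F : ℕ → ℤ → G} {R : ℕ → ℝ}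
  {U : Ultrafilter ℕ}

theorem Rpos (H : Hyp ε s0 F R U) (C : ℝ) : ∀ᶠ n in (U : Filter ℕ), C < R n :=
  H.hR.eventually_gt_atTop C

theorem hinv (H : Hyp ε s0 F R U) (C : ℝ) : Tendsto (fun n => C / R n) U (𝓝 0) :=
  H.hR.const_div_atTop C

theorem hinv2 (H : Hyp ε s0 F R U) (g : ℕ → ℝ) (z : ℝ) (hg : Tendsto g U (𝓝 z)) :
    Tendsto (fun n => g n / R n) U (𝓝 0) := by
  have h := hg.mul (H.hinv 1)
  rw [mul_zero] at h
  refine h.congr fun n => ?_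
  ring

variable {e : ℝ}

/-- partners: the product lies in the window -/
theorem partner (H : Hyp ε s0 F R U)
    (he : Tendsto (fun n => ((⌈2 * R n ^ 2⌉ : ℤ) : ℝ) - 2 * R n ^ 2) U (𝓝 e)) (k : ℤ) (hk : 0 ≤ k)
    (a b : ℝ) (ha : 0 ≤ a) (hb : b ^ 2 < k + e) (hab : (k : ℝ) + e - (1 + ε) < a ^ 2) :
    ∀ᶠ n in (U : Filter ℕ), ∀ N : ℤ, a * R n ≤ |(N : ℝ) - R n ^ 2| → |(N : ℝ) - R n ^ 2| ≤ b * R n →
      F n N * F n (⌈2 * R n ^ 2⌉ + k - N) = s0 n := by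
  have hK : Tendsto (fun n => (((⌈2 * R n ^ 2⌉ : ℤ) : ℝ) - 2 * R n ^ 2) + k) U (𝓝 (e + k)) :=
    he.add_const _
  have h1 : Tendsto (fun n => ((((⌈2 * R n ^ 2⌉ : ℤ) : ℝ) - 2 * R n ^ 2) + k) * (1 - b / R n)) U
      (𝓝 ((e + k) * (1 - 0))) := hK.mul ((H.hinv b).const_sub 1)
  have h2 : Tendsto (fun n => ((((⌈2 * R n ^ 2⌉ : ℤ) : ℝ) - 2 * R n ^ 2) + k) * (1 + b / R n)) U
      (𝓝 ((e + k) * (1 + 0))) := hK.mul ((H.hinv b).const_add 1)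
  have e1 := h1.eventually_const_lt (show b ^ 2 < (e + k) * (1 - 0) by linarith)
  have e2 := h2.eventually_lt_const (show (e + k) * (1 + 0) < a ^ 2 + (1 + ε) by linarith)
  filter_upwards [e1, e2, H.Rpos 0] with n c1 c2 c3 N hN1 hN2
  have hJ : 0 ≤ ((⌈2 * R n ^ 2⌉ : ℤ) : ℝ) - 2 * R n ^ 2 := by
    have := Int.le_ceil (2 * R n ^ 2)
    linarith
  obtain ⟨K, hKd⟩ : ∃ K, K = (((⌈2 * R n ^ 2⌉ : ℤ) : ℝ) - 2 * R n ^ 2) + k := ⟨_, rfl⟩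
  obtain ⟨D, hD⟩ : ∃ D, D = (N : ℝ) - R n ^ 2 := ⟨_, rfl⟩
  rw [← hKd] at c1 c2
  rw [← hD] at hN1 hN2
  have hk0 : (0 : ℝ) ≤ k := by exact_mod_cast hk
  have hK0 : 0 ≤ K := by rw [hKd]; linarith
  have hDb := abs_le.1 hN2
  have hDD : D ^ 2 ≤ (b * R n) ^ 2 := by
    rw [← sq_abs D]
    exact pow_le_pow_left₀ (abs_nonneg D) hN2 2
  have hDa : (a * R n) ^ 2 ≤ D ^ 2 := by
    rw [← sq_abs D]
    exact pow_le_pow_left₀ (by positivity) hN1 2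
  have d1 : K * (1 - b / R n) * R n ^ 2 = K * (R n ^ 2 - b * R n) := by
    field_simp
  have d2 : K * (1 + b / R n) * R n ^ 2 = K * (R n ^ 2 + b * R n) := by
    field_simp
  have hR2 : 0 < R n ^ 2 := by positivity
  have d3 : b ^ 2 * R n ^ 2 < K * (R n ^ 2 - b * R n) := by
    rw [← d1]
    exact mul_lt_mul_of_pos_right c1 hR2
  have d4 : K * (R n ^ 2 + b * R n) < (a ^ 2 + (1 + ε)) * R n ^ 2 := by
    rw [← d2]
    exact mul_lt_mul_of_pos_right c2 hR2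
  have hprod : (N : ℝ) * ((⌈2 * R n ^ 2⌉ : ℤ) + k - N) = R n ^ 4 - D ^ 2 + K * (R n ^ 2 + D) := by
    rw [hD, hKd]
    ring
  have d5 : K * (R n ^ 2 - b * R n) ≤ K * (R n ^ 2 + D) :=
    mul_le_mul_of_nonneg_left (by linarith) hK0
  have d6 : K * (R n ^ 2 + D) ≤ K * (R n ^ 2 + b * R n) :=
    mul_le_mul_of_nonneg_left (by linarith) hK0
  have w1 : R n ^ 4 < ((N * (⌈2 * R n ^ 2⌉ + k - N) : ℤ) : ℝ) := by
    push_cast
    rw [hprod]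
    nlinarith
  have w2 : ((N * (⌈2 * R n ^ 2⌉ + k - N) : ℤ) : ℝ) ≤ R n ^ 4 + (1 + ε) * R n ^ 2 := by
    push_cast
    rw [hprod]
    nlinarith
  have hne : N * (⌈2 * R n ^ 2⌉ + k - N) ≠ 0 := by
    intro h0
    rw [h0] at w1
    have : 0 < R n ^ 4 := by positivity
    simp at w1
    linarith
  rw [← H.hmul n _ _ (left_ne_zero_of_mul hne) (right_ne_zero_of_mul hne)]
  exact H.hW n _ w1 w2

/-- second partners on the right side -/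
theorem partner2 (H : Hyp ε s0 F R U)
    (he : Tendsto (fun n => ((⌈2 * R n ^ 2⌉ : ℤ) : ℝ) - 2 * R n ^ 2) U (𝓝 e)) (k : ℤ) (hk : 0 ≤ k)
    (a b : ℝ) (ha : 0 ≤ a) (hb0 : 0 ≤ b) (hb : b ^ 2 < k + e) (hab : (k : ℝ) + e - ε < a ^ 2) :
    ∀ᶠ n in (U : Filter ℕ), ∀ N : ℤ, a * R n ≤ (N : ℝ) - R n ^ 2 → (N : ℝ) - R n ^ 2 ≤ b * R n →
      F n (N + 1) * F n (⌈2 * R n ^ 2⌉ + k - N) = s0 n := by
  have hK : Tendsto (fun n => (((⌈2 * R n ^ 2⌉ : ℤ) : ℝ) - 2 * R n ^ 2) + k) U (𝓝 (e + k)) :=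
    he.add_const _
  have h1 : Tendsto (fun n => ((((⌈2 * R n ^ 2⌉ : ℤ) : ℝ) - 2 * R n ^ 2) + k) * (1 - b / R n)) U
      (𝓝 ((e + k) * (1 - 0))) := hK.mul ((H.hinv b).const_sub 1)
  have h2 : Tendsto (fun n => ((((⌈2 * R n ^ 2⌉ : ℤ) : ℝ) - 2 * R n ^ 2) + k) * (1 + b / R n) +
      ((((⌈2 * R n ^ 2⌉ : ℤ) : ℝ) - 2 * R n ^ 2) + k) / R n) U
      (𝓝 ((e + k) * (1 + 0) + 0)) :=
    (hK.mul ((H.hinv b).const_add 1)).add (H.hinv2 _ _ hK)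
  have e1 := h1.eventually_const_lt (show b ^ 2 < (e + k) * (1 - 0) by linarith)
  have e2 := h2.eventually_lt_const (show (e + k) * (1 + 0) + 0 < a ^ 2 + ε by linarith)
  filter_upwards [e1, e2, H.Rpos 1, H.Rpos b] with n c1 c2 c3 c4 N hN1 hN2
  have hJ : 0 ≤ ((⌈2 * R n ^ 2⌉ : ℤ) : ℝ) - 2 * R n ^ 2 := by
    have := Int.le_ceil (2 * R n ^ 2)
    linarith
  obtain ⟨K, hKd⟩ : ∃ K, K = (((⌈2 * R n ^ 2⌉ : ℤ) : ℝ) - 2 * R n ^ 2) + k := ⟨_, rfl⟩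
  obtain ⟨D, hD⟩ : ∃ D, D = (N : ℝ) - R n ^ 2 := ⟨_, rfl⟩
  rw [← hKd] at c1 c2
  rw [← hD] at hN1 hN2
  have hk0 : (0 : ℝ) ≤ k := by exact_mod_cast hk
  have hK0 : 0 ≤ K := by rw [hKd]; linarith
  have hRpos : 0 < R n := by linarith
  have haR : 0 ≤ a * R n := by positivity
  have hD0 : 0 ≤ D := by linarith
  have hDD : D ^ 2 ≤ (b * R n) ^ 2 := pow_le_pow_left₀ hD0 hN2 2
  have hDa : (a * R n) ^ 2 ≤ D ^ 2 := pow_le_pow_left₀ haR hN1 2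
  have d1 : K * (1 - b / R n) * R n ^ 2 = K * (R n ^ 2 - b * R n) := by
    field_simp
  have d2 : (K * (1 + b / R n) + K / R n) * R n ^ 2 = K * (R n ^ 2 + b * R n) + K * R n := by
    field_simp
  have hR2 : 0 < R n ^ 2 := by positivity
  have d3 : b ^ 2 * R n ^ 2 < K * (R n ^ 2 - b * R n) := by
    rw [← d1]
    exact mul_lt_mul_of_pos_right c1 hR2
  have d4 : K * (R n ^ 2 + b * R n) + K * R n < (a ^ 2 + ε) * R n ^ 2 := by
    rw [← d2]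
    exact mul_lt_mul_of_pos_right c2 hR2
  have hprod : ((N : ℝ) + 1) * ((⌈2 * R n ^ 2⌉ : ℤ) + k - N) =
      R n ^ 4 - D ^ 2 + K * (R n ^ 2 + D) + (R n ^ 2 - D + K) := by
    rw [hD, hKd]
    ring
  have d5 : K * (R n ^ 2 - b * R n) ≤ K * (R n ^ 2 + D) :=
    mul_le_mul_of_nonneg_left (by nlinarith) hK0
  have d6 : K * (R n ^ 2 + D) ≤ K * (R n ^ 2 + b * R n) :=
    mul_le_mul_of_nonneg_left (by linarith) hK0
  have d7 : D ≤ R n ^ 2 := by nlinarith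
  have d8 : K ≤ K * R n := by nlinarith
  have w1 : R n ^ 4 < (((N + 1) * (⌈2 * R n ^ 2⌉ + k - N) : ℤ) : ℝ) := by
    push_cast
    rw [hprod]
    nlinarith
  have w2 : (((N + 1) * (⌈2 * R n ^ 2⌉ + k - N) : ℤ) : ℝ) ≤ R n ^ 4 + (1 + ε) * R n ^ 2 := by
    push_cast
    rw [hprod]
    nlinarith
  have hne : (N + 1) * (⌈2 * R n ^ 2⌉ + k - N) ≠ 0 := by
    intro h0
    rw [h0] at w1
    have : 0 < R n ^ 4 := by positivity
    simp at w1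
    linarith
  rw [← H.hmul n _ _ (left_ne_zero_of_mul hne) (right_ne_zero_of_mul hne)]
  exact H.hW n _ w1 w2

/-- constancy on a zone, right side -/
theorem zone_const (H : Hyp ε s0 F R U)
    (he : Tendsto (fun n => ((⌈2 * R n ^ 2⌉ : ℤ) : ℝ) - 2 * R n ^ 2) U (𝓝 e)) (k : ℤ) (hk : 0 ≤ k)
    (a b : ℝ) (ha : 0 ≤ a) (hb0 : 0 ≤ b) (hb : b ^ 2 < k + e) (hab : (k : ℝ) + e - ε < a ^ 2) :
    ∀ᶠ n in (U : Filter ℕ), ∀ N M : ℤ, a * R n ≤ (N : ℝ) - R n ^ 2 → N ≤ M →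
      (M : ℝ) - R n ^ 2 ≤ b * R n → F n M = F n N := by
  have hε := H.hε
  filter_upwards [H.partner he k hk a b ha hb (by linarith), H.partner2 he k hk a b ha hb0 hb hab,
    H.Rpos 0] with n h1 h2 h3 N M hN hNM
  have haR : 0 ≤ a * R n := by positivity
  have hstep : ∀ N' : ℤ, a * R n ≤ (N' : ℝ) - R n ^ 2 → (N' : ℝ) - R n ^ 2 ≤ b * R n →
      F n (N' + 1) = F n N' := by
    intro N' p1 p2
    have q1 := h1 N' (by rw [abs_of_nonneg (by linarith)]; exact p1)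
      (by rw [abs_of_nonneg (by linarith)]; exact p2)
    have q2 := h2 N' p1 p2
    rw [← q1] at q2
    exact mul_right_cancel q2
  induction M, hNM using Int.leInduction with
  | base => intro _; rfl
  | succ M hM ih =>
    intro hMb
    push_cast at hMb
    have hM' : (N : ℝ) ≤ (M : ℝ) := by exact_mod_cast hM
    rw [hstep M (by linarith) (by linarith)]
    exact ih (by linarith)

/-- the constant of a zone -/
theorem zone_val (H : Hyp ε s0 F R U) (he0 : 0 ≤ e)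
    (he : Tendsto (fun n => ((⌈2 * R n ^ 2⌉ : ℤ) : ℝ) - 2 * R n ^ 2) U (𝓝 e)) (k : ℤ) (hk : 1 ≤ k) :
    ∃ c : ℕ → G, ∀ a b : ℝ, 0 ≤ a → 0 ≤ b → (k : ℝ) + e - ε < a ^ 2 → b ^ 2 < k + e →
      ∀ᶠ n in (U : Filter ℕ), ∀ N : ℤ, a * R n ≤ (N : ℝ) - R n ^ 2 → (N : ℝ) - R n ^ 2 ≤ b * R n →
        F n N = c n := by
  have hε := H.hε
  have hε1 := H.hε1
  have hk' : (1 : ℝ) ≤ (k : ℝ) := by exact_mod_cast hk
  obtain ⟨t1, ht1⟩ : ∃ t1, t1 = Real.sqrt (k + e - ε / 2) := ⟨_, rfl⟩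
  obtain ⟨t2, ht2⟩ : ∃ t2, t2 = Real.sqrt (k + e - ε / 4) := ⟨_, rfl⟩
  have ht1s : t1 ^ 2 = k + e - ε / 2 := by rw [ht1, Real.sq_sqrt]; linarith
  have ht2s : t2 ^ 2 = k + e - ε / 4 := by rw [ht2, Real.sq_sqrt]; linarith
  have ht10 : 0 ≤ t1 := by rw [ht1]; exact Real.sqrt_nonneg _
  have ht20 : 0 ≤ t2 := by rw [ht2]; exact Real.sqrt_nonneg _
  have ht12 : t1 < t2 := by nlinarith
  obtain ⟨c, hc⟩ : ∃ c : ℕ → G, ∀ n, F n ⌈R n ^ 2 + t1 * R n⌉ = c n :=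
    ⟨fun n => F n ⌈R n ^ 2 + t1 * R n⌉, fun _ => rfl⟩
  refine ⟨c, fun a b ha hb0 hab hb => ?_⟩
  have hm1 : (k : ℝ) + e - ε < (min a t1) ^ 2 := by
    rcases min_choice a t1 with h | h <;> rw [h] <;> linarith
  have hm2 : (max b t2) ^ 2 < k + e := by
    rcases max_choice b t2 with h | h <;> rw [h] <;> linarith
  filter_upwards [H.zone_const he k (by omega) (min a t1) (max b t2) (le_min ha ht10)
    (le_max_of_le_left hb0) hm2 hm1, H.Rpos 0, H.Rpos (1 / (t2 - t1))] with n h1 h3 h4 N hN1 hN2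
  rw [← hc n]
  have h5 : 1 < (t2 - t1) * R n := by
    rw [div_lt_iff₀ (by linarith)] at h4
    linarith
  have c1 := Int.le_ceil (R n ^ 2 + t1 * R n)
  have c2 := Int.ceil_lt_add_one (R n ^ 2 + t1 * R n)
  have hmin1 : min a t1 * R n ≤ a * R n := mul_le_mul_of_nonneg_right (min_le_left _ _) h3.le
  have hmin2 : min a t1 * R n ≤ t1 * R n := mul_le_mul_of_nonneg_right (min_le_right _ _) h3.le
  have hmax1 : b * R n ≤ max b t2 * R n := mul_le_mul_of_nonneg_right (le_max_left _ _) h3.le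
  have hmax2 : t2 * R n ≤ max b t2 * R n := mul_le_mul_of_nonneg_right (le_max_right _ _) h3.le
  rcases le_total N ⌈R n ^ 2 + t1 * R n⌉ with h | h
  · exact (h1 N _ (by linarith) h (by linarith)).symm
  · exact h1 _ N (by linarith) h (by linarith)

end Hyp

end Pool.Agent.Helper38.PG
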