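import Mathlib
import Pool.Agent.Helper38.PG.Main

/-!
# From the scales `ρ R` to all small integers, and the value of the window
-/

set_option autoImplicit false

open Filter Topology

namespace Pool.Agent.Helper38.PG

universe w

/-- integers `K p q` with small `p`, `q` near `R ^ 2 + t R` -/
theorem near (R : ℕ → ℝ) (U : Ultrafilter ℕ) (hR : Tendsto R U atTop) (c : ℝ) (hc : 0 < c) :
    ∃ K : ℤ, 1 ≤ K ∧ ∀ t η : ℝ, 0 < η → ∀ᶠ n in (U : Filter ℕ), ∃ p q : ℤ, 1 ≤ p ∧ (p : ℝ) ≤ c * R n ∧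
      1 ≤ q ∧ (q : ℝ) ≤ c * R n ∧ |((K * p * q : ℤ) : ℝ) - R n ^ 2 - t * R n| ≤ η * R n := by
  obtain ⟨K, hK⟩ : ∃ K : ℤ, K = ⌈4 / c ^ 2⌉ + 1 := ⟨_, rfl⟩
  have hK1 : 4 / c ^ 2 < K := by
    rw [hK]; push_cast
    linarith [Int.le_ceil (4 / c ^ 2)]
  have hK0 : (0 : ℝ) < K := lt_trans (by positivity) hK1
  have hKz : 0 < K := by exact_mod_cast hK0
  refine ⟨K, by omega, fun t η hη => ?_⟩
  -- the scale
  have hlt : (1 : ℝ) / (K * (c / 2) ^ 2) < K * (c / 2) ^ 2 := by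
    have h1 : 1 < K * (c / 2) ^ 2 := by
      rw [div_lt_iff₀ (by positivity)] at hK1
      nlinarith
    rw [div_lt_iff₀ (by linarith)]
    nlinarith
  obtain ⟨z, hzirr, hz1, hz2⟩ := exists_irrational_btwn hlt
  have hz0 : 0 < z := lt_trans (by positivity) hz1
  obtain ⟨ρ, hρd⟩ : ∃ ρ, ρ = Real.sqrt (z / K) := ⟨_, rfl⟩
  have hρ0 : 0 < ρ := by rw [hρd]; exact Real.sqrt_pos.2 (by positivity)
  have hρ2 : ρ ^ 2 = z / K := by rw [hρd, Real.sq_sqrt (by positivity)]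
  have hKρ : K * ρ ^ 2 = z := by rw [hρ2]; field_simp
  have hρc : ρ < c := by
    have h1 : ρ ^ 2 < (c / 2) ^ 2 := by
      rw [hρ2, div_lt_iff₀ hK0]
      linarith
    have h2 := lt_of_pow_lt_pow_left₀ 2 (by positivity) h1
    linarith
  have hρc' : 1 / (K * ρ) < c := by
    have h1 : (1 / (K * ρ)) ^ 2 < (c / 2) ^ 2 := by
      have h2 : (1 / (K * ρ)) ^ 2 = 1 / (K * z) := by
        rw [← hKρ]
        field_simp
      rw [h2, div_lt_iff₀ (by positivity)]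
      rw [div_lt_iff₀ (by positivity)] at hz1
      nlinarith
    have h2 := lt_of_pow_lt_pow_left₀ 2 (by positivity) h1
    linarith
  -- limits
  have hRpos : ∀ C : ℝ, ∀ᶠ n in (U : Filter ℕ), C < R n := fun C => hR.eventually_gt_atTop C
  have hinv : ∀ C : ℝ, Tendsto (fun n => C / R n) U (𝓝 0) := fun C => hR.const_div_atTop C
  obtain ⟨u, hu⟩ : ∃ u : ℕ → ℤ, ∀ n, u n = ⌊ρ * R n⌋ := ⟨fun n => ⌊ρ * R n⌋, fun _ => rfl⟩
  have hut : Tendsto (fun n => (u n : ℝ) / R n) U (𝓝 ρ) := by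
    have h2 : Tendsto (fun n => ρ - 1 / R n) U (𝓝 ρ) := by
      simpa using (hinv 1).const_sub ρ
    refine tendsto_of_tendsto_of_tendsto_of_le_of_le' h2 tendsto_const_nhds ?_ ?_
    · filter_upwards [hRpos 0] with n h4
      rw [le_div_iff₀ h4, hu]
      have h5 := Int.sub_one_lt_floor (ρ * R n)
      have h6 : (ρ - 1 / R n) * R n = ρ * R n - 1 := by field_simp
      rw [h6]
      exact h5.le
    · filter_upwards [hRpos 0] with n h4
      rw [div_le_iff₀ h4, hu]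
      exact Int.floor_le _
  have hupos : ∀ᶠ n in (U : Filter ℕ), 0 < (u n : ℝ) / R n := hut.eventually_const_lt hρ0
  have hub : ∀ᶠ n in (U : Filter ℕ), (u n : ℝ) / R n < ρ + 1 := hut.eventually_lt_const (by linarith)
  obtain ⟨v, hv⟩ : ∃ v : ℕ → ℤ, ∀ n, v n = ⌊R n ^ 2 / (K * u n)⌋ :=
    ⟨fun n => ⌊R n ^ 2 / (K * u n)⌋, fun _ => rfl⟩
  obtain ⟨t0, -, ht0⟩ := rlim U (fun n => ((K : ℝ) * u n * v n - R n ^ 2) / R n) (-(K * (ρ + 1))) 0 (by
    filter_upwards [hupos, hub, hRpos 0] with n h3 h3' h4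
    have hun : 0 < (u n : ℝ) := by
      have := mul_pos h3 h4
      rwa [div_mul_cancel₀ _ h4.ne'] at this
    have hKu : 0 < (K : ℝ) * u n := by positivity
    have h5 := Int.floor_le (R n ^ 2 / (K * u n))
    have h6 := Int.sub_one_lt_floor (R n ^ 2 / (K * u n))
    rw [← hv] at h5 h6
    have h7 : (v n : ℝ) * (K * u n) ≤ R n ^ 2 := by rwa [le_div_iff₀ hKu] at h5
    have h8 : R n ^ 2 < ((v n : ℝ) + 1) * (K * u n) := by
      have : R n ^ 2 / (K * u n) < v n + 1 := by linarith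
      rwa [div_lt_iff₀ hKu] at this
    rw [div_lt_iff₀ h4] at h3'
    have h9 : (K : ℝ) * u n ≤ K * ((ρ + 1) * R n) := mul_le_mul_of_nonneg_left h3'.le hK0.le
    rw [Set.mem_Icc, le_div_iff₀ h4, div_le_iff₀ h4]
    constructor <;> nlinarith)
  have hvt : Tendsto (fun n => (v n : ℝ) / R n) U (𝓝 (1 / (K * ρ))) := by
    have h1 : Tendsto (fun n => (1 + (((K : ℝ) * u n * v n - R n ^ 2) / R n) * (1 / R n)) /
        (K * ((u n : ℝ) / R n))) U (𝓝 ((1 + t0 * 0) / (K * ρ))) :=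
      ((ht0.mul (hinv 1)).const_add 1).div (hut.const_mul _) (by positivity)
    rw [mul_zero, add_zero] at h1
    refine h1.congr' ?_
    filter_upwards [hupos, hRpos 0] with n h3 h4
    have hun : 0 < (u n : ℝ) := by
      have := mul_pos h3 h4
      rwa [div_mul_cancel₀ _ h4.ne'] at this
    field_simp
    ring
  -- density
  have hdense : Dense (AddSubgroup.closure {K * ρ, 1 / ρ} : Set ℝ) := by
    rw [dense_addSubgroupClosure_pair_iff]
    have : (K * ρ) / (1 / ρ) = z := by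
      rw [← hKρ]
      field_simp
    rw [this]
    exact hzirr
  obtain ⟨y, hy, hyd⟩ := hdense.exists_dist_lt (t - t0) (show 0 < η / 2 by linarith)
  rw [SetLike.mem_coe, AddSubgroup.mem_closure_pair] at hy
  obtain ⟨m, i, hmi⟩ := hy
  rw [zsmul_eq_mul, zsmul_eq_mul] at hmi
  rw [Real.dist_eq] at hyd
  have hlim : Tendsto (fun n => ((K : ℝ) * u n * v n - R n ^ 2) / R n + K * i * ((v n : ℝ) / R n) +
      K * m * ((u n : ℝ) / R n) + (K * i * m) / R n) U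
      (𝓝 (t0 + K * i * (1 / (K * ρ)) + K * m * ρ + 0)) :=
    (((ht0.add (hvt.const_mul _)).add (hut.const_mul _)).add (hinv _))
  have hlv : t0 + K * i * (1 / (K * ρ)) + K * m * ρ + 0 = t0 + y := by
    rw [← hmi]
    field_simp
    ring
  rw [hlv] at hlim
  have hlim2 := Metric.tendsto_nhds.1 hlim (η / 2) (by linarith)
  have hp1 : Tendsto (fun n => (u n : ℝ) / R n + i / R n) U (𝓝 (ρ + 0)) := hut.add (hinv i)
  have hq1 : Tendsto (fun n => (v n : ℝ) / R n + m / R n) U (𝓝 (1 / (K * ρ) + 0)) := hvt.add (hinv m)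
  rw [add_zero] at hp1 hq1
  have hKρ0 : 0 < 1 / (K * ρ) := by positivity
  filter_upwards [hlim2, hp1.eventually_const_lt hρ0, hp1.eventually_lt_const hρc,
    hq1.eventually_const_lt hKρ0, hq1.eventually_lt_const hρc', hRpos 0] with n a1 a2 a3 a4 a5 a6
  rw [← add_div] at a2 a3 a4 a5
  rw [div_lt_iff₀ a6] at a3 a5
  have a2' : (0 : ℝ) < u n + i := by
    have := mul_pos a2 a6
    rwa [div_mul_cancel₀ _ a6.ne'] at this
  have a4' : (0 : ℝ) < v n + m := by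
    have := mul_pos a4 a6
    rwa [div_mul_cancel₀ _ a6.ne'] at this
  have b2 : 0 < u n + i := by exact_mod_cast a2'
  have b4 : 0 < v n + m := by exact_mod_cast a4'
  refine ⟨u n + i, v n + m, by omega, ?_, by omega, ?_, ?_⟩
  · push_cast; exact a3.le
  · push_cast; exact a5.le
  · push_cast
    rw [Real.dist_eq] at a1
    have e1 : (K : ℝ) * (u n + i) * (v n + m) - R n ^ 2 - t * R n =
        ((((K : ℝ) * u n * v n - R n ^ 2) / R n + K * i * ((v n : ℝ) / R n) +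
          K * m * ((u n : ℝ) / R n) + (K * i * m) / R n) - (t0 + y) - ((t - t0) - y)) * R n := by
      field_simp
      ring
    rw [e1, abs_mul, abs_of_pos a6]
    apply mul_le_mul_of_nonneg_right _ a6.le
    refine (abs_sub _ _).trans ?_
    linarith

/-- constancy on the scale `ρ R` gives the value `1` at all small integers -/
theorem small {G : Type*} [CommGroup G] (F : ℤ → G)
    (hmul : ∀ a b : ℤ, a ≠ 0 → b ≠ 0 → F (a * b) = F a * F b) (ρ1 ρ2 R : ℝ) (hρ1 : 0 < ρ1)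
    (hρ : ρ1 < ρ2) (hR : 16 / (ρ2 - ρ1) ≤ R)
    (hconst : ∀ z : ℤ, ρ1 * R ≤ z → (z : ℝ) ≤ ρ2 * R → F (z + 1) = F z) (B0 : ℤ)
    (hB0 : 4 * ρ1 / (ρ2 - ρ1) + 1 ≤ B0) (k : ℤ) (hk : 1 ≤ k)
    (hkR : (k : ℝ) ≤ (ρ2 - ρ1) / (8 * B0) * R) : F k = 1 := by
  obtain ⟨δ, hδ⟩ : ∃ δ, δ = ρ2 - ρ1 := ⟨_, rfl⟩
  rw [← hδ] at hR hB0 hkR
  have hδ0 : 0 < δ := by linarith
  have hR0 : 0 < R := lt_of_lt_of_le (by positivity) hR
  have hB00 : (1 : ℝ) ≤ B0 := by
    have : 0 ≤ 4 * ρ1 / δ := by positivity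
    linarith
  have hB0z : 1 ≤ B0 := by exact_mod_cast hB00
  have hδR : 16 ≤ δ * R := by
    rw [div_le_iff₀ hδ0] at hR
    linarith
  have hB1 : 4 * ρ1 ≤ δ * B0 := by
    have h1 : 4 * ρ1 / δ ≤ B0 := by linarith
    rw [div_le_iff₀ hδ0] at h1
    linarith
  -- constancy between two points of the range
  have hrun : ∀ P Q : ℤ, P ≤ Q → ρ1 * R ≤ P → (Q : ℝ) ≤ ρ2 * R → F Q = F P := by
    intro P Q hPQ hP
    induction Q, hPQ using Int.leInduction with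
    | base => intro _; rfl
    | succ Q hQ ih =>
      intro hQ2
      push_cast at hQ2
      have h1 : (P : ℝ) ≤ Q := by exact_mod_cast hQ
      rw [hconst Q (by linarith) (by linarith)]
      exact ih (by linarith)
  -- steps at small numbers
  have hstep : ∀ b : ℤ, B0 ≤ b → (b : ℝ) ≤ δ * R / 8 → F (b + 1) = F b := by
    intro b hb1 hb2
    have hbr : (B0 : ℝ) ≤ b := by exact_mod_cast hb1
    have hb0 : (0 : ℝ) < b := by linarith
    have hbz : b ≠ 0 := by omega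
    obtain ⟨a, ha⟩ : ∃ a : ℤ, a = ⌈ρ1 * R / b⌉ := ⟨_, rfl⟩
    have a1 : ρ1 * R / b ≤ a := by rw [ha]; exact Int.le_ceil _
    have a2 : (a : ℝ) < ρ1 * R / b + 1 := by rw [ha]; exact Int.ceil_lt_add_one _
    have a3 : 0 < ρ1 * R / b := by positivity
    have a0 : (0 : ℝ) < a := by linarith
    have a0z : a ≠ 0 := by
      intro h
      rw [h] at a0
      simp at a0
    have a4 : ρ1 * R ≤ a * b := by rwa [div_le_iff₀ hb0] at a1
    have a5 : (a : ℝ) * b < ρ1 * R + b := by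
      have h1 := mul_lt_mul_of_pos_right a2 hb0
      have h2 : (ρ1 * R / b + 1) * b = ρ1 * R + b := by field_simp
      linarith
    have a6 : ρ1 * R / b ≤ δ * R / 4 := by
      rw [div_le_iff₀ hb0]
      have h1 : 4 * ρ1 * R ≤ δ * B0 * R := mul_le_mul_of_nonneg_right hB1 hR0.le
      have h2 : δ * B0 * R ≤ δ * b * R := by
        apply mul_le_mul_of_nonneg_right _ hR0.le
        exact mul_le_mul_of_nonneg_left hbr hδ0.le
      linarith
    have h1 := hrun (a * b) (a * (b + 1)) (by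
      have : 0 < a := by exact_mod_cast a0
      nlinarith) (by push_cast; exact a4) (by
      push_cast
      have h3 : ρ2 * R = ρ1 * R + δ * R := by rw [hδ]; ring
      rw [h3]
      nlinarith)
    rw [hmul a (b + 1) a0z (by omega), hmul a b a0z hbz] at h1
    exact mul_left_cancel h1
  have hconst2 : ∀ Q : ℤ, B0 ≤ Q → (Q : ℝ) ≤ δ * R / 8 → F Q = F B0 := by
    intro Q hQ
    induction Q, hQ using Int.leInduction with
    | base => intro _; rfl
    | succ Q hQ ih =>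
      intro hQ2
      push_cast at hQ2
      rw [hstep Q hQ (by linarith)]
      exact ih (by linarith)
  have h1 := hconst2 (k * B0) (by nlinarith) (by
    push_cast
    have h2 : (k : ℝ) * B0 ≤ δ / (8 * B0) * R * B0 := mul_le_mul_of_nonneg_right hkR (by linarith)
    have h3 : δ / (8 * B0) * R * B0 = δ * R / 8 := by
      have : (B0 : ℝ) ≠ 0 := by linarith
      field_simp
    linarith)
  rw [hmul k B0 (by omega) (by omega)] at h1
  exact mul_eq_right.1 h1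

/-- The conclusion for the limit objects. -/
theorem concl (ε : ℝ) (hε : 0 < ε) (hε1 : ε < 1) : ∃ c : ℝ, 0 < c ∧
    ∀ (G : Type w) [CommGroup G] (s0 : ℕ → G) (F : ℕ → ℤ → G) (R : ℕ → ℝ) (U : Ultrafilter ℕ),
      Hyp ε s0 F R U →
      ∀ᶠ n in (U : Filter ℕ), s0 n = 1 ∧ ∀ k : ℤ, 1 ≤ k → (k : ℝ) ≤ c * R n → F n k = 1 := by
  obtain ⟨ρ1, ρ2, hρ1, hρ, hmain⟩ := exists_scale.{w} ε hε hε1
  obtain ⟨B0, hB0⟩ : ∃ B0 : ℤ, B0 = ⌈4 * ρ1 / (ρ2 - ρ1) + 1⌉ := ⟨_, rfl⟩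
  have hB01 : 4 * ρ1 / (ρ2 - ρ1) + 1 ≤ B0 := by rw [hB0]; exact Int.le_ceil _
  have hδ : 0 < ρ2 - ρ1 := by linarith
  have hB00 : (1 : ℝ) ≤ B0 := by
    have : 0 ≤ 4 * ρ1 / (ρ2 - ρ1) := by positivity
    linarith
  have hc : 0 < (ρ2 - ρ1) / (8 * B0) := by positivity
  refine ⟨(ρ2 - ρ1) / (8 * B0), hc, fun G _ s0 F R U H => ?_⟩
  obtain ⟨⟨t, c, ⟨η, hη, hval⟩, hcs⟩, hsc⟩ := hmain G s0 F R U H
  -- constancy on the whole range of scales
  have hall : ∀ᶠ n in (U : Filter ℕ), ∀ z : ℤ, ρ1 * R n ≤ z → (z : ℝ) ≤ ρ2 * R n →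
      F n (z + 1) = F n z := by
    by_contra hcon
    rw [← Ultrafilter.eventually_not] at hcon
    have hex : ∀ n, ∃ u : ℤ, (¬ ∀ z : ℤ, ρ1 * R n ≤ z → (z : ℝ) ≤ ρ2 * R n → F n (z + 1) = F n z) →
        ρ1 * R n ≤ u ∧ (u : ℝ) ≤ ρ2 * R n ∧ F n (u + 1) ≠ F n u := by
      intro n
      by_cases h : ∀ z : ℤ, ρ1 * R n ≤ z → (z : ℝ) ≤ ρ2 * R n → F n (z + 1) = F n z
      · exact ⟨0, fun h' => absurd h h'⟩
      · push Not at h
        obtain ⟨z, h1, h2, h3⟩ := h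
        exact ⟨z, fun _ => ⟨h1, h2, h3⟩⟩
    choose u hu using hex
    obtain ⟨ρ, ⟨h1, h2⟩, h3⟩ := rlim U (fun n => (u n : ℝ) / R n) ρ1 ρ2 (by
      filter_upwards [hcon, H.Rpos 0] with n h1 h2
      obtain ⟨h3, h4, -⟩ := hu n h1
      rw [Set.mem_Icc, le_div_iff₀ h2, div_le_iff₀ h2]
      exact ⟨h3, h4⟩)
    have h4 := hsc ρ h1 h2 u h3
    obtain ⟨n, h5, h6⟩ := (h4.and hcon).exists
    exact (hu n h6).2.2 h5
  have hsmall : ∀ᶠ n in (U : Filter ℕ), ∀ k : ℤ, 1 ≤ k → (k : ℝ) ≤ (ρ2 - ρ1) / (8 * B0) * R n →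
      F n k = 1 := by
    filter_upwards [hall, H.Rpos (16 / (ρ2 - ρ1))] with n h1 h2 k hk1 hk2
    exact small (F n) (H.hmul n) ρ1 ρ2 (R n) hρ1 hρ h2.le h1 B0 hB01 k hk1 hk2
  obtain ⟨K, hK, hnear⟩ := near R U H.hR _ hc
  have hKR : ∀ᶠ n in (U : Filter ℕ), (K : ℝ) ≤ (ρ2 - ρ1) / (8 * B0) * R n := by
    filter_upwards [H.Rpos (K / ((ρ2 - ρ1) / (8 * B0)))] with n hn
    rw [div_lt_iff₀ hc] at hn
    linarith
  filter_upwards [hsmall, hnear t η hη, hval, hcs, hKR] with n h1 h2 h3 h4 h5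
  refine ⟨?_, h1⟩
  obtain ⟨p, q, hp1, hp2, hq1, hq2, hpq⟩ := h2
  have h6 := h3 (K * p * q) hpq
  rw [H.hmul n (K * p) q (mul_ne_zero (by omega) (by omega)) (by omega),
    H.hmul n K p (by omega) (by omega), h1 K hK h5, h1 p hp1 hp2, h1 q hq1 hq2, one_mul, one_mul] at h6
  rw [← h4, ← h6, one_mul]

end Pool.Agent.Helper38.PG
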