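import Mathlib
import Pool.Agent.Helper38.PG.Small

/-!
# Completely multiplicative functions constant on a window `(x, x + C √x]`, `C > 1`
-/

set_option autoImplicit false

open Filter Topology

namespace Pool.Agent.Helper38.PG

universe w

private theorem exists_eps (C : ℝ) (hC : 1 < C) : ∃ ε : ℝ, 0 < ε ∧ ε < 1 ∧ 1 + ε ≤ C := by
  refine ⟨min (C - 1) (1 / 2), lt_min (by linarith) (by norm_num), ?_, ?_⟩
  · have := min_le_right (C - 1) (1 / 2 : ℝ)
    linarith
  · have := min_le_left (C - 1) (1 / 2 : ℝ)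
    linarith

private theorem fourth (x : ℝ) (hx : 0 ≤ x) : Real.sqrt (Real.sqrt x) ^ 4 = x := by
  rw [show (4 : ℕ) = 2 * 2 by norm_num, pow_mul, Real.sq_sqrt (Real.sqrt_nonneg _), Real.sq_sqrt hx]

theorem final (C : ℝ) (hC : 1 < C) : ∃ c : ℝ, 0 < c ∧ ∃ x0 : ℝ, ∀ x : ℝ, x0 ≤ x →
    ∀ (G : Type w) [CommGroup G] (f : ℕ → G),
      (∀ a b : ℕ, a ≠ 0 → b ≠ 0 → f (a * b) = f a * f b) →
      (∀ m m' : ℕ, x < m → (m : ℝ) ≤ x + C * Real.sqrt x → x < m' →
        (m' : ℝ) ≤ x + C * Real.sqrt x → f m = f m') →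
      (∀ m : ℕ, x < m → (m : ℝ) ≤ x + C * Real.sqrt x → f m = 1) ∧
      ∀ k : ℕ, k ≠ 0 → (k : ℝ) ≤ c * Real.sqrt (Real.sqrt x) → f k = 1 := by
  obtain ⟨ε, hε, hε1, hεC⟩ := exists_eps C hC
  obtain ⟨c, hc, hmain⟩ := concl.{w} ε hε hε1
  refine ⟨c, hc, ?_⟩
  by_contra hcon
  push Not at hcon
  have h := fun n : ℕ => hcon ((n : ℝ) + 1)
  choose x hx G inst f hf hW hbad using h
  obtain ⟨F, hF⟩ : ∃ F : ℕ → ℤ → (∀ n, G n), ∀ n z, F n z = Pi.mulSingle n (f n z.natAbs) :=
    ⟨fun n z => Pi.mulSingle n (f n z.natAbs), fun _ _ => rfl⟩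
  have hx1 : ∀ n, 1 ≤ x n := fun n => by
    have := hx n
    have h0 : (0 : ℝ) ≤ n := Nat.cast_nonneg n
    linarith
  have hnat : ∀ n, ∀ z : ℤ, x n < z → ((z.natAbs : ℕ) : ℝ) = z := by
    intro n z hz
    have h1 := hx1 n
    have h2 : (0 : ℝ) < z := by linarith
    have h3 : 0 < z := by exact_mod_cast h2
    rw [Nat.cast_natAbs, abs_of_pos h3]
  have H : Hyp ε (fun n => F n (⌊x n⌋ + 1)) F (fun n => Real.sqrt (Real.sqrt (x n)))
      (hyperfilter ℕ) :=
    { hε := hε
      hε1 := hε1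
      hmul := by
        intro n a b ha hb
        rw [hF, hF, hF, Int.natAbs_mul, hf n _ _ (by omega) (by omega), Pi.mulSingle_mul]
      hR := by
        have h1 : Tendsto x atTop atTop := by
          refine tendsto_atTop_mono (fun n => ?_) tendsto_natCast_atTop_atTop
          have := hx n
          linarith
        exact ((Real.tendsto_sqrt_atTop.comp (Real.tendsto_sqrt_atTop.comp h1))).mono_left
          Nat.hyperfilter_le_atTop
      hW := by
        intro n z h1 h2
        have hx0 : 0 ≤ x n := by linarith [hx1 n]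
        rw [fourth _ hx0] at h1 h2
        rw [Real.sq_sqrt (Real.sqrt_nonneg _)] at h2
        have h3 : (1 + ε) * Real.sqrt (x n) ≤ C * Real.sqrt (x n) :=
          mul_le_mul_of_nonneg_right hεC (Real.sqrt_nonneg _)
        have h4 : (1 : ℝ) ≤ Real.sqrt (x n) := by
          apply Real.le_sqrt_of_sq_le
          linarith [hx1 n]
        have h5 : x n < ((⌊x n⌋ + 1 : ℤ) : ℝ) := by
          push_cast
          exact Int.lt_floor_add_one _
        have h6 : ((⌊x n⌋ + 1 : ℤ) : ℝ) ≤ x n + C * Real.sqrt (x n) := by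
          push_cast
          have := Int.floor_le (x n)
          nlinarith
        simp only [hF]
        congr 1
        apply hW n
        · rw [hnat n z h1]; exact h1
        · rw [hnat n z h1]; linarith
        · rw [hnat n _ h5]; exact h5
        · rw [hnat n _ h5]; exact h6 }
  have h1 := hmain _ _ _ _ _ H
  obtain ⟨n, hs, hk⟩ := h1.exists
  have hx0 : 0 ≤ x n := by linarith [hx1 n]
  have h4 : (1 : ℝ) ≤ Real.sqrt (x n) := by
    apply Real.le_sqrt_of_sq_le
    linarith [hx1 n]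
  have h5 : x n < ((⌊x n⌋ + 1 : ℤ) : ℝ) := by
    push_cast
    exact Int.lt_floor_add_one _
  have h6 : ((⌊x n⌋ + 1 : ℤ) : ℝ) ≤ x n + C * Real.sqrt (x n) := by
    push_cast
    have := Int.floor_le (x n)
    nlinarith
  have key1 : f n (⌊x n⌋ + 1).natAbs = 1 := by
    simp only [hF] at hs
    exact Pi.mulSingle_eq_one_iff.1 hs
  obtain ⟨k, hk0, hk1, hk2⟩ := hbad n (by
    intro m hm1 hm2
    rw [← key1]
    apply hW n m _ hm1 hm2
    · rw [hnat n _ h5]; exact h5
    · rw [hnat n _ h5]; exact h6)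
  apply hk2
  have h7 := hk k (by omega) (by exact_mod_cast hk1)
  rw [hF, Int.natAbs_natCast] at h7
  exact Pi.mulSingle_eq_one_iff.1 h7

end Pool.Agent.Helper38.PG
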